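import Pool.Agent.H90.ISO.Quant
import Pool.Agent.H39.GEN.DichT

/-!
# Static windows from one pair at each scale and place

`sta_of_pairs`: if the diagonal of a law is differentiable at `g`, and near `g`, at all scales `q`
and places `u`, there is a pair `(t + q, t)` with `u ≤ t ≤ u + del q` at which the law does not
depend on the window up to `del q`, then `g` is a static window.
-/

set_option autoImplicit false

namespace Pool.STR

open Pool.LEV (Law)
open Pool.QNT (affB_of)

/-- **Static windows from pairs.** -/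
theorem sta_of_pairs {L : ℝ → ℝ → ℝ} (hL : Law L) {g : ℝ} (hg : 0 < g) (hg1 : g < 1)
    (hd : DifferentiableAt ℝ (fun a => L a a) g)
    (h : ∀ K del : ℝ, 1 ≤ K → 0 < del → ∃ q₁ : ℝ, 0 < q₁ ∧ ∀ q u : ℝ, 0 < q → q < q₁ →
      |u - g| ≤ K * q → ∃ t : ℝ, u ≤ t ∧ t ≤ u + del * q ∧
        L (t + q) (t + q) ≤ L (t + q) t + del * q) : StaAt L g := by
  intro e he
  obtain ⟨S, hS⟩ : ∃ S, S = |deriv (fun a => L a a) g| := ⟨_, rfl⟩
  have hS0 : 0 ≤ S := by rw [hS]; exact abs_nonneg _
  -- the diagonal
  obtain ⟨ea, hea⟩ : ∃ ea : ℝ, ea = e / 8 := ⟨_, rfl⟩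
  have hea0 : 0 < ea := by rw [hea]; linarith
  obtain ⟨r₁, hr₁, h1⟩ := affB_of hd (M := 32) (e := ea) (by norm_num) hea0
  -- the constants
  obtain ⟨e₁, he₁⟩ : ∃ e₁ : ℝ, e₁ = min 1 (e / (8 * (S + 1))) := ⟨_, rfl⟩
  have he10 : 0 < e₁ := by rw [he₁]; exact lt_min one_pos (by positivity)
  have he11 : S * e₁ ≤ e / 8 := by
    have h2 : e₁ ≤ e / (8 * (S + 1)) := by rw [he₁]; exact min_le_right _ _
    rw [le_div_iff₀ (by positivity)] at h2
    nlinarith
  obtain ⟨del, hdel⟩ : ∃ del : ℝ, del = min (1 / 2) (e / (256 * (S + 1))) := ⟨_, rfl⟩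
  have hdel0 : 0 < del := by rw [hdel]; exact lt_min (by norm_num) (by positivity)
  have hdel1 : del ≤ 1 / 2 := by rw [hdel]; exact min_le_left _ _
  have hdel2 : del * (S + 1) ≤ e / 256 := by
    have h2 : del ≤ e / (256 * (S + 1)) := by rw [hdel]; exact min_le_right _ _
    rw [le_div_iff₀ (by positivity)] at h2
    linarith
  obtain ⟨K, hK⟩ : ∃ K : ℝ, K = 8 / e₁ + 1 := ⟨_, rfl⟩
  have hK1 : 1 ≤ K := by
    have : 0 < 8 / e₁ := by positivity
    linarith
  obtain ⟨q₁, hq₁, h2⟩ := h K del hK1 hdel0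
  refine ⟨min (min r₁ (q₁ / 17)) (min (g / 32) ((1 - g) / 32)), ?_, fun r hr hr' a w hw hwa ha => ?_⟩
  · exact lt_min (lt_min hr₁ (by linarith)) (lt_min (by linarith) (by linarith))
  have m1 : r < r₁ := hr'.trans_le ((min_le_left _ _).trans (min_le_left _ _))
  have m2 : r < q₁ / 17 := hr'.trans_le ((min_le_left _ _).trans (min_le_right _ _))
  have m3 : r < g / 32 := hr'.trans_le ((min_le_right _ _).trans (min_le_left _ _))
  have m4 : r < (1 - g) / 32 := hr'.trans_le ((min_le_right _ _).trans (min_le_right _ _))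
  have haff := h1 r hr m1
  -- the growth of the diagonal
  have hdia : ∀ x y : ℝ, |x - g| ≤ 32 * r → |y - g| ≤ 32 * r → y ≤ x →
      L x x - L y y ≤ S * (x - y) + 2 * (ea * r) := by
    intro x y hx hy hyx
    have h3 := (abs_le.1 (haff x hx)).2
    have h4 := (abs_le.1 (haff y hy)).1
    have h5 : deriv (fun a => L a a) g * (x - y) ≤ S * (x - y) := by
      rw [hS]
      exact mul_le_mul_of_nonneg_right (le_abs_self _) (by linarith)
    have e5 : deriv (fun a => L a a) g * (x - y) = deriv (fun a => L a a) g * (x - g) -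
      deriv (fun a => L a a) g * (y - g) := by ring
    linarith
  rcases le_or_gt (a - w) (e₁ * r) with h3 | h3
  · -- a thin pair
    have h4 := hdia a w (by
      rw [abs_le]
      constructor <;> linarith) (by
      rw [abs_le]
      constructor <;> linarith) hwa
    have h5 : L w w ≤ L a w := hL.mono_a w a w (by linarith) le_rfl hwa (by linarith)
    have h6 : S * (a - w) ≤ S * (e₁ * r) := mul_le_mul_of_nonneg_left h3 hS0
    have h7 : S * e₁ * r ≤ e / 8 * r := mul_le_mul_of_nonneg_right he11 hr.le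
    have h8 : 0 < e * r := mul_pos he hr
    rw [hea] at h4
    linarith [mul_assoc S e₁ r]
  · -- a pair of the box
    obtain ⟨q, hq⟩ : ∃ q : ℝ, q = a - w := ⟨_, rfl⟩
    rw [← hq] at h3
    have hq0 : 0 < q := lt_trans (mul_pos he10 hr) h3
    have hq16 : q ≤ 16 * r := by linarith
    have hdq : del * q ≤ q / 2 := by
      have := mul_le_mul_of_nonneg_right hdel1 hq0.le
      linarith
    have hdq0 : 0 < del * q := mul_pos hdel0 hq0
    obtain ⟨t, t1, t2, t3⟩ := h2 q (w - del * q) hq0 (by linarith) (by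
      have h4 : 8 * r ≤ 8 / e₁ * q := by
        rw [div_mul_eq_mul_div, le_div_iff₀ he10]
        linarith [mul_comm e₁ r]
      have h5 : K * q = 8 / e₁ * q + q := by rw [hK]; ring
      rw [h5, abs_le]
      constructor <;> linarith)
    have h4 : t ≤ w := by linarith
    have hta : t + q ≤ a := by linarith
    -- the value at the pair
    have h5 : L (t + q) t ≤ L a w := hL.mono (by linarith) (by linarith) hta h4 hwa (by linarith)
    have h6 := hdia a (t + q) (by
      rw [abs_le]
      constructor <;> linarith) (by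
      rw [abs_le]
      constructor <;> linarith) hta
    have h7 : S * (a - (t + q)) ≤ S * (del * q) := mul_le_mul_of_nonneg_left (by linarith) hS0
    have h8 : del * (S + 1) * q ≤ e / 256 * (16 * r) :=
      mul_le_mul hdel2 hq16 hq0.le (by positivity)
    have e8 : del * (S + 1) * q = S * (del * q) + del * q := by ring
    have h9 : 0 < e * r := mul_pos he hr
    rw [hea] at h6
    rw [e8] at h8
    linarith

end Pool.STR
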