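import Pool.Agent.H74.D2G.Dns

/-!
# The data of the paths, the diagonal pairs with a constant chosen first

`Pk.unif2_ae`: as `Pk.unif_ae`; for the diagonal pairs `(w + u, w + u)` the constant `S₀` does not
depend on the size `c₀` and on the measure `τ` of the exceptional set.
-/

set_option autoImplicit false

namespace Pool.ISO

open Finset Real MeasureTheory
open Pool.LEV (Law)
open Pool.Agent.H49.Ent Pool.Agent.H32.Dense Pool.STK Pool.KA Pool.KSAT Pool.K2S Pool.PB Pool.S6C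
open Pool.GEN Pool.CHT Pool.CHX
open Pool.LBT (LSys Slo Tri ThrOf fl_le' bas_false)
open Pool.JTN (TgP Cen mod_all)
open Pool.FRN (AttC UpA Wgd attN_attC law_diag)
open Pool.STR (AttN)

/-- **The data of the diagonal paths near a centre**, `S₀` does not depend on `c₀`, `τ`. -/
theorem ptD_diag {m : ℕ} {S : PCl m} {P : List (Fin m) × Fin m → ℝ → ℝ → ℝ} {θ : ℝ}
    {c : ℕ → Fin m} {r : ℕ} {Pt : ℝ → ℝ → ℝ}
    {x vs e E sg ρ₀ : ℝ} {Att : Set (ℝ × ℝ)} (hAN : AttN Att) (hρ₀ : 0 < ρ₀) (hx : ρ₀ < x)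
    (hx1 : x + ρ₀ < 1)
    (hpt : ∀ a w, (a, w) ∈ Att → 0 < w → w ≤ a → a < 1 →
      |a - x| ≤ ρ₀ → |w - x| ≤ ρ₀ → PtN S P θ c r Pt a w vs e e E sg)
    (hD : ∀ l ≤ r, DnsAt (lvN P c r Pt l) x) :
    ∃ S₀ : ℕ, 1 ≤ S₀ ∧ ∀ c₀ τ : ℝ, 0 ≤ c₀ → 0 < τ → ∃ s₁ : ℝ, 0 < s₁ ∧ ∀ s u : ℝ, 0 < s →
      s < s₁ → 0 ≤ u → u ≤ s → volume {w : ℝ | |w - x| ≤ c₀ * s ∧ ¬ ∃ (ρ : ℝ) (Q : Set ℝ),
        PtD S P θ c r Pt (w + u) (w + u) ρ S₀ (fun _ => vs) (fun _ => e) (fun _ => e)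
          (fun _ => E) (fun _ => sg) Q} ≤ ENNReal.ofReal (τ * s) := by
  obtain ⟨N, ρ, h1, h3, h6⟩ := dnsn (f := fun l => lvN P c r Pt l) (g := x) (r + 1)
    fun l hl => hD l (by omega)
  obtain ⟨ρ₁, hρ₁⟩ : ∃ ρ₁ : ℝ, ρ₁ = min ρ (ρ₀ / 2) := ⟨_, rfl⟩
  have hρ10 : 0 < ρ₁ := by rw [hρ₁]; exact lt_min h3 (by linarith)
  have hρ11 : ρ₁ ≤ ρ := by rw [hρ₁]; exact min_le_left _ _
  have hρ12 : ρ₁ ≤ ρ₀ / 2 := by rw [hρ₁]; exact min_le_right _ _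
  obtain ⟨S₀, hS₀⟩ := exists_nat_ge (max N (2 / ρ₁) + 1)
  have hS1 : N ≤ S₀ := by linarith [le_max_left N (2 / ρ₁)]
  have hS2 : 2 / ρ₁ ≤ S₀ := by linarith [le_max_right N (2 / ρ₁)]
  have hS3 : (1 : ℝ) ≤ S₀ := by
    have : 0 ≤ max N (2 / ρ₁) := h1.le.trans (le_max_left _ _)
    linarith
  rw [div_le_iff₀ hρ10] at hS2
  refine ⟨S₀, by exact_mod_cast hS3, fun c₀ τ hc₀ hτ => ?_⟩
  obtain ⟨s₀, h2, h6⟩ := h6 c₀ τ hc₀ hτ
  obtain ⟨s₁, hs₁⟩ : ∃ s₁ : ℝ, s₁ = min s₀ (ρ₀ / (2 * (c₀ + 1))) := ⟨_, rfl⟩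
  have hs10 : 0 < s₁ := by rw [hs₁]; exact lt_min h2 (by positivity)
  have hs11 : s₁ ≤ s₀ := by rw [hs₁]; exact min_le_left _ _
  have hs12 : (c₀ + 1) * s₁ ≤ ρ₀ / 2 := by
    have h7 : s₁ ≤ ρ₀ / (2 * (c₀ + 1)) := by rw [hs₁]; exact min_le_right _ _
    rw [le_div_iff₀ (by positivity)] at h7
    linarith
  refine ⟨s₁, hs10, fun s u hs hss hu hus => ?_⟩
  have h7 := h6 s u hs (hss.trans_le hs11) hu hus
  have h8 : volume {w : ℝ | ¬ (0 < u + w → u + w < 1 → (u + w, u + w) ∈ Att)} = 0 :=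
    ae_iff.1 (hAN u u le_rfl)
  have h9 : (c₀ + 1) * s ≤ ρ₀ / 2 :=
    (mul_le_mul_of_nonneg_left hss.le (by linarith)).trans hs12
  have e9 : (c₀ + 1) * s = c₀ * s + s := by ring
  rw [e9] at h9
  have h10 : ENNReal.ofReal (τ * s) = ENNReal.ofReal (τ * s) + 0 := (add_zero _).symm
  rw [h10, ← h8]
  refine (measure_mono ?_).trans ((measure_union_le _ _).trans (add_le_add_left h7 _))
  rintro w ⟨hw, hnot⟩
  by_contra hcon
  rw [Set.mem_union, not_or] at hcon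
  obtain ⟨c1, c2⟩ := hcon
  simp only [Set.mem_ofPred_eq, not_and, not_not] at c1 c2
  have hw' := abs_le.1 hw
  have h11 := c2 (by linarith) (by linarith)
  rw [add_comm u w] at h11
  refine hnot ⟨ρ₁, {κ | (w + u - κ, w + u - κ) ∈ Att}, ptD_mk hAN hx hx1 hpt h11 le_rfl
    (by
      rw [abs_le]
      constructor <;> linarith) (by
      rw [abs_le]
      constructor <;> linarith) hρ10 hρ12 (fun l hl κ hκ hκρ => ?_) hS2⟩
  have h12 := c1 hw l (by omega) κ hκ (hκρ.trans hρ11)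
  have h13 := mul_le_mul_of_nonneg_right hS1 hκ
  linarith

end Pool.ISO

namespace Pool.PKG

open MeasureTheory Set Filter Topology
open Pool.Agent.H49.Ent Pool.Agent.H32.Dense Pool.STK Pool.KA Pool.KSAT Pool.K2S Pool.PB
open Pool.GEN Pool.S6C Pool.STAT Pool.CHT Pool.GRW Pool.ONE Pool.STA
open Pool.LBT (LSys ThrOf)
open Pool.LEV (Law)
open Pool.TOP (TopS)
open Pool.FRN (AttC UpA Wgd attN_attC)
open Pool.JTN (TgP Cen)
open Pool.ISO (PtN PtD Att2 lvN ptN_near ptD_near att2_ae ptD_maxn dg_ae DnsAt ptD_diag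
  diag_dens_all)

variable {n : ℕ} {hn : 2 ≤ n} {S : PCl n} {P : ℝ → ℝ → ℝ} {r : ℝ → ℝ}
  {P' : ℕ → List (Fin n) × Fin n → ℝ → ℝ → ℝ} {Λ : Finset (Fin n) → Fin n → ℝ → ℝ → ℝ}
  {o : Od n} {g α Q c : ℝ}

/-- The diagonals of the levels grow at most linearly backwards from most points near `g`. -/
def DnL (hn : 2 ≤ n) (P : ℝ → ℝ → ℝ) (P' : ℕ → List (Fin n) × Fin n → ℝ → ℝ → ℝ) (o : Od n)
    (g : ℝ) : Prop :=
  ∀ l ≤ n - 1, DnsAt (lvN (P' o.2) (cc hn o.1.1) (n - 1) P l) g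

theorem Pk.dnL_ae (H : Pk hn S P r P' Λ) : ∀ᵐ g : ℝ, 0 < g → g < 1 → ∀ o : Od n,
    DnL hn P P' o g := by
  have h1 : ∀ᵐ g : ℝ, ∀ j : ℕ, 0 < g → g < 1 → ∀ i, DnsAt (P' j i) g :=
    ae_all_iff.2 fun j => diag_dens_all fun i => (H.cht j).law i
  have h2 := diag_dens_all (ι := Unit) (f := fun _ => P) fun _ => H.tgs.law ()
  filter_upwards [h1, h2] with g h3 h4 hg hg1 o l _
  have h7 : lvN (P' o.2) (cc hn o.1.1) (n - 1) P l =
      if l < n - 1 then bet (P' o.2) (cc hn o.1.1) l else P := by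
    funext a w
    unfold lvN
    split_ifs <;> rfl
  rw [h7]
  split_ifs
  · exact h3 o.2 hg hg1 _
  · exact h4 hg hg1 ()

/-- **The data of the paths near a good window.** -/
theorem Fac.ptD_unif2 (F : Fac hn S P r P' o g α Q c) (H : Pk hn S P r P' Λ)
    (hD : DgL hn P P' o g) (hD2 : DnL hn P P' o g) :
    ∃ E : ℝ, 0 < E ∧ (∀ l ≤ n - 1, lvN (P' o.2) (cc hn o.1.1) (n - 1) P l g g + E < 1) ∧
      ∀ e' : ℝ, 0 < e' → ∃ vs e : ℝ, 0 < e ∧ e ≤ e' ∧ ∃ S₀ : ℕ, 1 ≤ S₀ ∧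
        ∀ c₀ τ : ℝ, 0 ≤ c₀ → 0 < τ → ∃ (S₁ : ℕ) (s₁ : ℝ), 1 ≤ S₁ ∧ 0 < s₁ ∧
          (∀ s u : ℝ, 0 < s → s < s₁ → 0 ≤ u → u ≤ s →
            volume {w : ℝ | |w - g| ≤ c₀ * s ∧ ¬ ∃ (ρ : ℝ) (Q' : Set ℝ),
              PtD S (P' o.2) (tht o.2) (cc hn o.1.1) (n - 1) P (w + u) (w + u) ρ S₀ (fun _ => vs)
                (fun _ => e) (fun _ => e) (fun _ => E) (fun _ => 1 - c) Q'} ≤
              ENNReal.ofReal (τ * s)) ∧
          ∀ s u y : ℝ, 0 < s → s < s₁ → 0 ≤ u → u ≤ y → y ≤ s →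
            volume {w : ℝ | |w - g| ≤ c₀ * s ∧ ¬ ∃ (ρ : ℝ) (Q' : Set ℝ),
              PtD S (P' o.2) (tht o.2) (cc hn o.1.1) (n - 1) P (w + y) (w + u) ρ S₁ (fun _ => vs)
                (fun _ => e) (fun _ => e) (fun _ => E) (fun _ => 1 - c) Q'} ≤
              ENNReal.ofReal (τ * s) := by
  have hc0 : 0 < c := (tht_pos _).trans F.thc
  obtain ⟨M, hM⟩ : ∃ M, M = max (P g g) (bet (P' o.2) (cc hn o.1.1) (n - 2) g g) := ⟨_, rfl⟩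
  have hPc : P g g ≤ 1 - c := (F.PQ g g F.g0 le_rfl F.gα).trans F.Q1
  have hM1 : M ≤ 1 - c := by
    rw [hM]
    exact max_le hPc (F.le (n - 2) (by omega) g g F.g0 le_rfl F.gα)
  have hE0 : 0 < 1 - c / 2 - M := by linarith
  have hE : 1 - c < 1 - c / 2 - M + P g g ∨
      1 - c < 1 - c / 2 - M + bet (P' o.2) (cc hn o.1.1) (n - 2) g g := by
    rcases max_choice (P g g) (bet (P' o.2) (cc hn o.1.1) (n - 2) g g) with h | h
    · left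
      rw [hM, h]
      linarith
    · right
      rw [hM, h]
      linarith
  refine ⟨1 - c / 2 - M, hE0, fun l hl => ?_, fun e' he' => ?_⟩
  · unfold lvN
    split_ifs with h3
    · have h4 := F.bet_le H h3
      have h5 : bet (P' o.2) (cc hn o.1.1) (n - 2) g g ≤ M := by
        rw [hM]
        exact le_max_right _ _
      linarith
    · have h5 : P g g ≤ M := by
        rw [hM]
        exact le_max_left _ _
      linarith
  · have hα := F.gα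
    obtain ⟨vs, e, he0, he1, ρ₁, hρ₁, h1⟩ := ptN_near (S := S) H.ne (H.cht o.2) (tht_pos _) H.tmh
      (cc_inj1 hn _) (H.tgs.law ()) (fun a w hw hwa ha1 => H.tgs.low () a w hw.le hwa ha1)
      (F.cen' hE0 hE) (by linarith)
      (Att := AttC (P' o.2))
      (fun a w haw _ _ ha1 => ⟨fun i _ l _ => haw.1.rc ha1 _ l i, fun i _ => haw.1.up _ i⟩)
      (ρT := (α - g) / 2) (by linarith) (fun a w haw hw hwa ha1 hag _ => F.tgP H hw hwa (by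
        have := (abs_le.1 hag).2
        linarith) haw) he'
    refine ⟨vs, e, he0, he1, ?_⟩
    obtain ⟨ρ₀, hρ₀⟩ : ∃ ρ₀ : ℝ, ρ₀ = min ρ₁ (min (g / 2) ((1 - g) / 2)) := ⟨_, rfl⟩
    have hg0 := F.g0
    have hg1 := F.g1
    have hρ0 : 0 < ρ₀ := by
      rw [hρ₀]
      exact lt_min hρ₁ (lt_min (by linarith) (by linarith))
    have r1 : ρ₀ ≤ ρ₁ := by rw [hρ₀]; exact min_le_left _ _
    have r2 : ρ₀ ≤ g / 2 := by rw [hρ₀]; exact (min_le_right _ _).trans (min_le_left _ _)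
    have r3 : ρ₀ ≤ (1 - g) / 2 := by rw [hρ₀]; exact (min_le_right _ _).trans (min_le_right _ _)
    obtain ⟨S₀, hS₀, k1⟩ := ptD_diag (attN_attC (H.cht o.2)) hρ0 (show ρ₀ < g by linarith)
      (show g + ρ₀ < 1 by linarith) (fun a w haw hw hwa ha h2 h3 =>
        h1 a w haw hw hwa ha (h2.trans r1) (h3.trans r1)) hD2
    refine ⟨S₀, hS₀, fun c₀ τ hc₀ hτ => ?_⟩
    obtain ⟨s₂, hs₂, k2⟩ := k1 c₀ τ hc₀ hτ
    obtain ⟨S₁, s₁, hS₁, hs₁, k3⟩ := ptD_maxn (H.cht o.2) (H.tgs.law ())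
      (attN_attC (H.cht o.2)) hρ0 (show ρ₀ < g by linarith)
      (show g + ρ₀ < 1 by linarith) (fun a w haw hw hwa ha h2 h3 =>
        h1 a w haw hw hwa ha (h2.trans r1) (h3.trans r1)) hD hc₀ hτ
    exact ⟨S₁, min s₂ s₁, hS₁, lt_min hs₂ hs₁,
      fun s u hs hss hu hus => k2 s u hs (hss.trans_le (min_le_left _ _)) hu hus,
      fun s u y hs hss hu huy hys => k3 s u y hs (hss.trans_le (min_le_right _ _)) hu huy hys⟩

/-- **The data of the paths near almost every good window**: the constant `S₀` of the diagonal pairs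
does not depend on `c₀` and `τ`. -/
theorem Pk.unif2_ae (H : Pk hn S P r P' Λ) (hTop : TopS n) (hF : FZX (n - 1)) :
    ∀ᵐ g : ℝ, ∀ o : Od n, g ∈ Gs P r P' Λ o → ∃ E c : ℝ, 0 < E ∧
      (∀ l ≤ n - 1, lvN (P' o.2) (cc hn o.1.1) (n - 1) P l g g + E < 1) ∧
      ∀ e' : ℝ, 0 < e' → ∃ vs e : ℝ, 0 < e ∧ e ≤ e' ∧ ∃ S₀ : ℕ, 1 ≤ S₀ ∧
        ∀ c₀ τ : ℝ, 0 ≤ c₀ → 0 < τ → ∃ (S₁ : ℕ) (s₁ : ℝ), 1 ≤ S₁ ∧ 0 < s₁ ∧
          (∀ s u : ℝ, 0 < s → s < s₁ → 0 ≤ u → u ≤ s →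
            volume {w : ℝ | |w - g| ≤ c₀ * s ∧ ¬ ∃ (ρ : ℝ) (Q' : Set ℝ),
              PtD S (P' o.2) (tht o.2) (cc hn o.1.1) (n - 1) P (w + u) (w + u) ρ S₀ (fun _ => vs)
                (fun _ => e) (fun _ => e) (fun _ => E) (fun _ => 1 - c) Q'} ≤
              ENNReal.ofReal (τ * s)) ∧
          ∀ s u y : ℝ, 0 < s → s < s₁ → 0 ≤ u → u ≤ y → y ≤ s →
            volume {w : ℝ | |w - g| ≤ c₀ * s ∧ ¬ ∃ (ρ : ℝ) (Q' : Set ℝ),
              PtD S (P' o.2) (tht o.2) (cc hn o.1.1) (n - 1) P (w + y) (w + u) ρ S₁ (fun _ => vs)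
                (fun _ => e) (fun _ => e) (fun _ => E) (fun _ => 1 - c) Q'} ≤
              ENNReal.ofReal (τ * s) := by
  filter_upwards [H.dgL_ae, H.dnL_ae] with g hg hg2 o ho
  obtain ⟨α, Q, c, F⟩ := H.fac hTop hF ho
  obtain ⟨E, h1, h2, h3⟩ := F.ptD_unif2 H (hg F.g0 F.g1 o) (hg2 F.g0 F.g1 o)
  exact ⟨E, c, h1, h2, h3⟩

end Pool.PKG
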