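import Pool.Agent.H2.GEN.Unf

/-!
# Growth of a diagonal backwards, at points of density

`diag_dens`: for a law `f`, almost every window `g` has constants `N`, `ρ` such that, at all small
scales `s`, the growth of the diagonal of `f` backwards from `w + x`, `0 ≤ x ≤ s`, is at most `N κ`
for all `κ ≤ ρ`, for all `w` with `|w - g| ≤ c s` outside a set of measure `τ s`. The constants `N`
and `ρ` do not depend on `c` and `τ`.
-/

set_option autoImplicit false

namespace Pool.ISO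

open MeasureTheory Set Filter Topology
open Pool.LEV (Law)

/-! ### Monotone functions -/

/-- The points at which the growth backwards is at most `k κ` for `κ ≤ 1 / k`. -/
def GrwD (D : ℝ → ℝ) (k : ℕ) : Set ℝ :=
  {w | ∀ κ : ℝ, 0 ≤ κ → κ ≤ 1 / k → D w ≤ D (w - κ) + k * κ}

theorem grwD_eq {D : ℝ → ℝ} (hD : Monotone D) {k : ℕ} :
    GrwD D k = ⋂ q : ℚ, {w | 0 ≤ (q : ℝ) → (q : ℝ) ≤ 1 / k → D w ≤ D (w - q) + k * q} := by
  ext w
  rw [mem_iInter]
  refine ⟨fun h q hq hq1 => h q hq hq1, fun h κ hκ hκ1 => ?_⟩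
  rcases hκ1.lt_or_eq with h1 | h1
  · refine le_of_forall_pos_le_add fun e he => ?_
    obtain ⟨q, hq1, hq2⟩ := exists_rat_btwn (show κ < min (1 / (k : ℝ)) (κ + e / (k + 1)) from
      lt_min h1 (by
        have : 0 < e / ((k : ℝ) + 1) := by positivity
        linarith))
    have h2 := h q (hκ.trans hq1.le) (hq2.le.trans (min_le_left _ _))
    have h3 : D (w - q) ≤ D (w - κ) := hD (by linarith)
    have h4 : (q : ℝ) ≤ κ + e / (k + 1) := hq2.le.trans (min_le_right _ _)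
    have h5 : (k : ℝ) * q ≤ k * (κ + e / (k + 1)) := mul_le_mul_of_nonneg_left h4 (Nat.cast_nonneg k)
    have h6 : (k : ℝ) * (e / (k + 1)) ≤ e := by
      rw [← mul_div_assoc, div_le_iff₀ (by positivity)]
      linarith [mul_comm (k : ℝ) e]
    linarith [mul_add (k : ℝ) κ (e / (k + 1))]
  · have h2 := h (1 / (k : ℚ)) (by push_cast; positivity) (by push_cast; exact le_rfl)
    push_cast at h2
    rw [h1]
    exact h2

theorem grwD_meas {D : ℝ → ℝ} (hD : Monotone D) (k : ℕ) : MeasurableSet (GrwD D k) := by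
  rw [grwD_eq hD]
  refine MeasurableSet.iInter fun q => ?_
  by_cases h : 0 ≤ (q : ℝ) ∧ (q : ℝ) ≤ 1 / k
  · have e1 : {w | 0 ≤ (q : ℝ) → (q : ℝ) ≤ 1 / k → D w ≤ D (w - q) + k * q} =
        {w | D w ≤ D (w - q) + k * q} := by
      ext w
      exact ⟨fun h1 => h1 h.1 h.2, fun h1 _ _ => h1⟩
    rw [e1]
    exact measurableSet_le hD.measurable
      ((hD.measurable.comp (measurable_id.sub_const _)).add_const _)
  · have e1 : {w | 0 ≤ (q : ℝ) → (q : ℝ) ≤ 1 / k → D w ≤ D (w - q) + k * q} = univ := by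
      ext w
      exact ⟨fun _ => mem_univ _, fun _ h1 h2 => absurd ⟨h1, h2⟩ h⟩
    rw [e1]
    exact MeasurableSet.univ

/-- The complement of a measurable set near a point of density, in the ball of radius `r`. -/
theorem dens_compl {E : Set ℝ} (hE : MeasurableSet E) {g : ℝ}
    (h : Tendsto (fun r => volume (E ∩ Metric.closedBall g r) / volume (Metric.closedBall g r))
      (𝓝[>] 0) (𝓝 1)) {θ : ℝ} (hθ : 0 < θ) : ∃ r₀ : ℝ, 0 < r₀ ∧ ∀ r : ℝ, 0 < r → r < r₀ →
      volume (Metric.closedBall g r \ E) ≤ ENNReal.ofReal (θ * (2 * r)) := by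
  have h1 : ∀ᶠ r in 𝓝[>] (0 : ℝ), ENNReal.ofReal (1 - θ) <
      volume (E ∩ Metric.closedBall g r) / volume (Metric.closedBall g r) := by
    refine h.eventually_const_lt ?_
    rw [← ENNReal.ofReal_one, ENNReal.ofReal_lt_ofReal_iff one_pos]
    linarith
  obtain ⟨r₀, hr₀, h2⟩ := mem_nhdsGT_iff_exists_Ioo_subset.1 h1
  refine ⟨r₀, hr₀, fun r hr hr' => ?_⟩
  have h3 : ENNReal.ofReal (1 - θ) <
      volume (E ∩ Metric.closedBall g r) / volume (Metric.closedBall g r) := h2 ⟨hr, hr'⟩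
  have hv : volume (Metric.closedBall g r) = ENNReal.ofReal (2 * r) := Real.volume_closedBall g r
  have hv0 : volume (Metric.closedBall g r) ≠ 0 := by
    rw [hv]
    exact (ENNReal.ofReal_pos.2 (by linarith)).ne'
  have hvt : volume (Metric.closedBall g r) ≠ ⊤ := by
    rw [hv]
    exact ENNReal.ofReal_ne_top
  have h4 : ENNReal.ofReal (1 - θ) * volume (Metric.closedBall g r) ≤
      volume (E ∩ Metric.closedBall g r) := by
    rw [← ENNReal.le_div_iff_mul_le (Or.inl hv0) (Or.inl hvt)]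
    exact h3.le
  have h5 : volume (E ∩ Metric.closedBall g r) + volume (Metric.closedBall g r \ E) =
      volume (Metric.closedBall g r) := by
    rw [inter_comm]
    exact measure_inter_add_sdiff _ hE
  have h6 : volume (E ∩ Metric.closedBall g r) ≠ ⊤ :=
    ne_top_of_le_ne_top hvt (measure_mono inter_subset_right)
  refine (ENNReal.add_le_add_iff_left h6).1 ?_
  rw [h5]
  rcases le_or_gt 1 θ with hθ1 | hθ1
  · refine le_add_left ?_
    rw [hv]
    refine ENNReal.ofReal_le_ofReal ?_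
    have : 1 * (2 * r) ≤ θ * (2 * r) := mul_le_mul_of_nonneg_right hθ1 (by linarith)
    linarith
  · calc volume (Metric.closedBall g r) = ENNReal.ofReal ((1 - θ) * (2 * r) + θ * (2 * r)) := by
          rw [hv]
          congr 1
          ring
      _ = ENNReal.ofReal (1 - θ) * volume (Metric.closedBall g r) +
            ENNReal.ofReal (θ * (2 * r)) := by
          rw [ENNReal.ofReal_add (mul_nonneg (by linarith) (by linarith))
            (mul_nonneg hθ.le (by linarith)), ENNReal.ofReal_mul (by linarith), hv]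
      _ ≤ _ := add_le_add_left h4 _

/-! ### Laws -/

/-- The growth of the diagonal backwards is linear, with constants independent of `c` and `τ`. -/
def DnsAt (f : ℝ → ℝ → ℝ) (g : ℝ) : Prop :=
  ∃ N ρ : ℝ, 0 < N ∧ 0 < ρ ∧ ∀ c τ : ℝ, 0 ≤ c → 0 < τ →
    ∃ s₀ : ℝ, 0 < s₀ ∧ ∀ s x : ℝ, 0 < s → s < s₀ → 0 ≤ x → x ≤ s →
      volume {w : ℝ | |w - g| ≤ c * s ∧ ¬ (∀ κ : ℝ, 0 ≤ κ → κ ≤ ρ →
        f (w + x) (w + x) ≤ f (w + x - κ) (w + x - κ) + N * κ)} ≤ ENNReal.ofReal (τ * s)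

theorem diag_dens_all {ι : Type*} [Countable ι] {f : ι → ℝ → ℝ → ℝ} (hf : ∀ i, Law (f i)) :
    ∀ᵐ g : ℝ, 0 < g → g < 1 → ∀ i, DnsAt (f i) g := by
  obtain ⟨D, hD⟩ : ∃ D : ι → ℝ → ℝ, D = fun i w => f i (max 0 (min 1 w)) (max 0 (min 1 w)) :=
    ⟨_, rfl⟩
  have hmon : ∀ i, Monotone (D i) := by
    intro i x y hxy
    rw [hD]
    have h1 : max 0 (min 1 x) ≤ max 0 (min 1 y) := max_le_max le_rfl (min_le_min le_rfl hxy)
    exact (hf i).mono (le_max_left _ _) le_rfl h1 h1 le_rfl (max_le zero_le_one (min_le_left _ _))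
  have hval : ∀ i w, 0 ≤ w → w ≤ 1 → D i w = f i w w := by
    intro i w h0 h1
    rw [hD]
    show f i (max 0 (min 1 w)) (max 0 (min 1 w)) = f i w w
    rw [min_eq_right h1, max_eq_right h0]
  have h1 : ∀ᵐ g : ℝ, ∀ i, ∀ k : ℕ, g ∈ GrwD (D i) k →
      Tendsto (fun r => volume (GrwD (D i) k ∩ Metric.closedBall g r) /
        volume (Metric.closedBall g r)) (𝓝[>] 0) (𝓝 1) := by
    refine ae_all_iff.2 fun i => ae_all_iff.2 fun k => ?_
    exact (ae_restrict_iff' (grwD_meas (hmon i) k)).1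
      (Besicovitch.ae_tendsto_measure_inter_div volume (GrwD (D i) k))
  filter_upwards [h1, dg_ae hf] with g h1 h2 hg hg1 i
  obtain ⟨V, t₀, hV, ht₀, h3⟩ := h2 hg hg1 i
  obtain ⟨k, hk⟩ := exists_nat_gt (max V (max (1 / t₀) (1 / g)))
  have k1 : V < k := (le_max_left _ _).trans_lt hk
  have k2 : 1 / t₀ < k := ((le_max_left _ _).trans (le_max_right _ _)).trans_lt hk
  have k3 : 1 / g < k := ((le_max_right _ _).trans (le_max_right _ _)).trans_lt hk
  have k0 : (0 : ℝ) < k := hV.trans_lt k1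
  have k4 : 1 / (k : ℝ) < t₀ := by
    rw [div_lt_iff₀ ht₀] at k2
    rw [div_lt_iff₀ k0]
    linarith [mul_comm (k : ℝ) t₀]
  have k5 : 1 / (k : ℝ) < g := by
    rw [div_lt_iff₀ hg] at k3
    rw [div_lt_iff₀ k0]
    linarith [mul_comm (k : ℝ) g]
  have h4 : g ∈ GrwD (D i) k := by
    intro κ hκ hκ1
    rw [hval i g hg.le hg1.le, hval i (g - κ) (by linarith) (by linarith)]
    have h5 := h3 (-κ) (by
      rw [abs_neg, abs_of_nonneg hκ]
      linarith)
    rw [abs_neg, abs_of_nonneg hκ, ← sub_eq_add_neg] at h5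
    have h6 := (abs_le.1 h5).1
    have h7 := mul_le_mul_of_nonneg_right k1.le hκ
    linarith
  have hdens := h1 i k h4
  refine ⟨k, min (1 / k) (g / 2), k0, lt_min (by positivity) (by linarith),
    fun c τ hc hτ => ?_⟩
  have hθ : 0 < τ / (2 * (c + 1)) := by positivity
  obtain ⟨r₀, hr₀, h5⟩ := dens_compl (grwD_meas (hmon i) k) hdens hθ
  refine ⟨min r₀ (min (g / 2) (1 - g)) / (c + 1), div_pos (lt_min hr₀ (lt_min (by linarith)
    (by linarith))) (by linarith), fun s x hs hss hx hxs => ?_⟩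
  rw [lt_div_iff₀ (by linarith)] at hss
  have m1 := min_le_left r₀ (min (g / 2) (1 - g))
  have m2 := (min_le_right r₀ (min (g / 2) (1 - g))).trans (min_le_left _ _)
  have m3 := (min_le_right r₀ (min (g / 2) (1 - g))).trans (min_le_right _ _)
  have e0 : s * (c + 1) = c * s + s := by ring
  rw [e0] at hss
  have hcs : 0 ≤ c * s := by positivity
  have h6 := h5 (c * s + s) (by linarith) (by linarith)
  have e1 : τ / (2 * (c + 1)) * (2 * (c * s + s)) = τ * s := by
    field_simp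
  rw [e1] at h6
  rw [← measure_preimage_add_right volume x] at h6
  refine (measure_mono ?_).trans h6
  rintro w ⟨hw, hnot⟩
  have hw' := abs_le.1 hw
  show w + x ∈ Metric.closedBall g (c * s + s) \ GrwD (D i) k
  refine ⟨?_, fun hmem => hnot fun κ hκ hκ1 => ?_⟩
  · rw [Metric.mem_closedBall, Real.dist_eq, abs_le]
    constructor <;> linarith
  · have n1 : κ ≤ 1 / k := hκ1.trans (min_le_left _ _)
    have n2 : κ ≤ g / 2 := hκ1.trans (min_le_right _ _)
    have h7 := hmem κ hκ n1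
    rwa [hval i _ (by linarith) (by linarith), hval i _ (by linarith) (by linarith)] at h7

/-- **Growth of the diagonal backwards**: the constants do not depend on `c` and `τ`. -/
theorem diag_dens {f : ℝ → ℝ → ℝ} (hf : Law f) : ∀ᵐ g : ℝ, 0 < g → g < 1 →
    ∃ N ρ : ℝ, 0 < N ∧ 0 < ρ ∧ ∀ c τ : ℝ, 0 ≤ c → 0 < τ →
      ∃ s₀ : ℝ, 0 < s₀ ∧ ∀ s x : ℝ, 0 < s → s < s₀ → 0 ≤ x → x ≤ s →
        volume {w : ℝ | |w - g| ≤ c * s ∧ ¬ (∀ κ : ℝ, 0 ≤ κ → κ ≤ ρ →
          f (w + x) (w + x) ≤ f (w + x - κ) (w + x - κ) + N * κ)} ≤ ENNReal.ofReal (τ * s) := by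
  filter_upwards [diag_dens_all (ι := Unit) (f := fun _ => f) fun _ => hf] with g h hg hg1
  exact h hg hg1 ()

/-- Finitely many laws. -/
theorem dnsn {f : ℕ → ℝ → ℝ → ℝ} {g : ℝ} : ∀ n : ℕ, (∀ l < n, DnsAt (f l) g) →
    ∃ N ρ : ℝ, 0 < N ∧ 0 < ρ ∧ ∀ c τ : ℝ, 0 ≤ c → 0 < τ →
      ∃ s₀ : ℝ, 0 < s₀ ∧ ∀ s x : ℝ, 0 < s → s < s₀ → 0 ≤ x → x ≤ s →
        volume {w : ℝ | |w - g| ≤ c * s ∧ ¬ (∀ l < n, ∀ κ : ℝ, 0 ≤ κ → κ ≤ ρ →
          f l (w + x) (w + x) ≤ f l (w + x - κ) (w + x - κ) + N * κ)} ≤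
          ENNReal.ofReal (τ * s) := by
  intro n
  induction n with
  | zero =>
    intro _
    refine ⟨1, 1, one_pos, one_pos, fun c τ _ _ => ⟨1, one_pos, fun s x _ _ _ _ => ?_⟩⟩
    have h1 : {w : ℝ | |w - g| ≤ c * s ∧ ¬ ∀ l < 0, ∀ κ : ℝ, 0 ≤ κ → κ ≤ 1 →
        f l (w + x) (w + x) ≤ f l (w + x - κ) (w + x - κ) + 1 * κ} = ∅ := by
      rw [Set.eq_empty_iff_forall_notMem]
      rintro w ⟨-, h2⟩
      exact h2 fun l hl => absurd hl (Nat.not_lt_zero l)
    rw [h1, measure_empty]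
    exact zero_le
  | succ n ih =>
    intro hf
    obtain ⟨N, ρ, h1, h2, h3⟩ := ih fun l hl => hf l (by omega)
    obtain ⟨N', ρ', k1, k2, k3⟩ := hf n (Nat.lt_succ_self n)
    refine ⟨max N N', min ρ ρ', lt_max_of_lt_left h1, lt_min h2 k2, fun c τ hc hτ => ?_⟩
    obtain ⟨s₀, h4, h5⟩ := h3 c (τ / 2) hc (by linarith)
    obtain ⟨s₀', k4, k5⟩ := k3 c (τ / 2) hc (by linarith)
    refine ⟨min s₀ s₀', lt_min h4 k4, fun s x hs hss hx hxs => ?_⟩
    have h7 := h5 s x hs (hss.trans_le (min_le_left _ _)) hx hxs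
    have h8 := k5 s x hs (hss.trans_le (min_le_right _ _)) hx hxs
    have e2 : τ * s = τ / 2 * s + τ / 2 * s := by ring
    rw [e2, ENNReal.ofReal_add (by positivity) (by positivity)]
    refine (measure_mono ?_).trans ((measure_union_le _ _).trans (add_le_add h7 h8))
    rintro w ⟨hw, hnot⟩
    by_contra hcon
    rw [Set.mem_union, not_or] at hcon
    obtain ⟨c1, c2⟩ := hcon
    simp only [Set.mem_ofPred_eq, not_and, not_not] at c1 c2
    refine hnot fun l hl κ hκ hκρ => ?_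
    rcases Nat.lt_or_ge l n with h9 | h9
    · have h10 := c1 hw l h9 κ hκ (hκρ.trans (min_le_left _ _))
      have h11 := mul_le_mul_of_nonneg_right (le_max_left N N') hκ
      linarith
    · have h10 : l = n := by omega
      subst h10
      have h11 := c2 hw κ hκ (hκρ.trans (min_le_right _ _))
      have h12 := mul_le_mul_of_nonneg_right (le_max_right N N') hκ
      linarith

end Pool.ISO
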